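import Pool.Agent.Lib.OC75.Simple

namespace Pool.Agent.Results.MP_de4dbb_al.SimpleOCn

/-- For every `n ≥ 10 ^ 48` there is an infinite simple group generated by two elements whose set
of element orders is exactly `{1, ..., n}`. -/
theorem result (n : ℕ) (hn : 10 ^ 48 ≤ n) :
    ∃ (G : Type) (_ : Group G), (∃ a b : G, Subgroup.closure {a, b} = ⊤) ∧ Infinite G ∧
      IsSimpleGroup G ∧ (∀ g : G, IsOfFinOrder g ∧ orderOf g ≤ n) ∧
      ∀ m : ℕ, 1 ≤ m → m ≤ n → ∃ g : G, orderOf g = m :=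
  Pool.Agent.Lib.OCn.main_simple n hn

end Pool.Agent.Results.MP_de4dbb_al.SimpleOCn
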